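import Pool.Agent.H502.SM.Sharp

/-!
# The exact threshold for multiplicity one modulo `p`, for representations with large image

Let `K` be a number field, for example totally real, `p ≥ 5`, `F` a finite field with `q` elements and of
characteristic `p`, `k` a field containing `F` (via `ι`), and `ρ : G_K → GL₂(k)` a continuous
representation with large image over `F`: up to scalars the image contains `SL₂(F)` and is contained in
`GL₂(F)`.

1. If the traces of `ρ` and of any continuous `σ : G_K → GL₂(k)` agree at Frobenius elements of primes of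
   upper density greater than `q / (2 (q - 1))`, then `ρ` and `σ` are isomorphic.
2. This is optimal: if `ρ` has values in `GL₂(F)`, the image contains `SL₂(F)`, `-1` is not a square in
   `F` and the determinant of `ρ` takes a value which is not a square, then the twist `σ` of `ρ` by the
   quadratic character of the determinant is not isomorphic to `ρ`, and the traces agree on a set of
   primes of natural density exactly `q / (2 (q - 1))`.

**Proof.** By the structure theorem (`H502/SM/Cor1-Cor6`, see `SmallDensityMultiplicityOne`) either the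
traces agree on a proportion of at most `1 / (q - 1)`, or `σ x = c' φ(A)` for `ρ x = c ι(A)`, with a
homomorphism `φ : F → k`. In a coset of `SL₂(F)` the traces then agree for the matrices whose trace `t`
satisfies `c ι(t) = c' φ(t)`, which is `F` or a proper subgroup of `F`, the zero group if `φ = ι` and
`c ≠ c'`; each trace is taken at most `q² + q` times in a coset of `SL₂(F)`, and trace zero exactly
`q² + q` times if minus the determinant is a square.
-/

set_option autoImplicit false

open Matrix NumberField IsDedekindDomain Filter Topology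
open Pool.Agent.W401.Cheb (GK IsFrob dens)

namespace Pool.Agent.Results.MP_cab3fc_nt.ExactThreshold

/-- The image of `ρ` is large over the field `F`, embedded in `k` by `ι`: up to scalars of `k` it
contains `SL₂(F)`, and up to scalars of `k` it is contained in `GL₂(F)`. -/
def Large {K k F : Type} [Field K] [Field k] [Field F] (ι : F →+* k) (ρ : GK K →* GL (Fin 2) k) :
    Prop :=
  (∀ B : Matrix (Fin 2) (Fin 2) F, B.det = 1 → ∃ (x : GK K) (c : k), (ρ x).val = c • B.map ι) ∧
    ∀ x : GK K, ∃ (c : k) (A : GL (Fin 2) F), (ρ x).val = c • A.val.map ι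

/-- The set of the primes `v` of `K` with property `P` has upper density greater than `d`. -/
def UpperDensityGT {K : Type} [Field K] [NumberField K] (P : HeightOneSpectrum (𝓞 K) → Prop)
    (d : ℝ) : Prop :=
  ∃ δ : ℝ, d < δ ∧ ∃ᶠ N in atTop, δ ≤ dens P N

/-- **The exact threshold for multiplicity one modulo `p`.** -/
theorem result (p : ℕ) [Fact p.Prime] (h5 : 5 ≤ p) (F : Type) [Field F] [Fintype F] [CharP F p]
    (K : Type) [Field K] [NumberField K] :
    (∀ (k : Type) [Field k] [CharP k p] (ι : F →+* k) (ρ : GK K →* GL (Fin 2) k),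
      IsOpen (ρ.ker : Set (GK K)) → Large ι ρ →
      ∀ σ : GK K →* GL (Fin 2) k, IsOpen (σ.ker : Set (GK K)) →
        UpperDensityGT (fun v : HeightOneSpectrum (𝓞 K) => ∃ x, IsFrob v x ∧
          (ρ x).val.trace = (σ x).val.trace) ((Fintype.card F : ℝ) / (2 * (Fintype.card F - 1))) →
        ∃ P : GL (Fin 2) k, ∀ x, σ x = P * ρ x * P⁻¹) ∧
    (∀ ρ : GK K →* GL (Fin 2) F, IsOpen (ρ.ker : Set (GK K)) →
      (∀ B : Matrix (Fin 2) (Fin 2) F, B.det = 1 → ∃ x, (ρ x).val = B) →
      ¬ IsSquare (-1 : F) → (∃ x, ¬ IsSquare (ρ x).val.det) →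
      ∃ σ : GK K →* GL (Fin 2) F, ρ.ker ≤ σ.ker ∧ (∀ x, σ x = ρ x ∨ σ x = - ρ x) ∧
        Tendsto (dens fun v : HeightOneSpectrum (𝓞 K) => ∃ x, IsFrob v x ∧
          (ρ x).val.trace = (σ x).val.trace) atTop
          (𝓝 ((Fintype.card F : ℝ) / (2 * (Fintype.card F - 1)))) ∧
        ¬ ∃ P : GL (Fin 2) F, ∀ x, σ x = P * ρ x * P⁻¹) := by
  classical
  refine ⟨?_, ?_⟩
  · rintro k _ _ ι ρ hρ hL σ hσ ⟨δ, hδ, hG⟩
    exact Pool.Agent.H502.SM.main_two h5 ⟨hL.1, hL.2⟩ hρ hσ _ hG hδ fun v hv => hv
  · intro ρ hρ hS hneg hd
    exact ⟨_, Pool.Agent.H502.SM.sharp ρ hρ hS hneg hd⟩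

end Pool.Agent.Results.MP_cab3fc_nt.ExactThreshold
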