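import Pool.Agent.H502.SM.Sharp

/-!
# Multiplicity one modulo `p` from primes of small density, for representations with large image

Let `K` be a number field, for example totally real, `p ≥ 5`, `F` a finite field with `q` elements and of
characteristic `p`, `k` a field containing `F` (via `ι`), and `ρ : G_K → GL₂(k)` a continuous
representation with large image over `F`: up to scalars the image contains `SL₂(F)` and is contained in
`GL₂(F)`. By Dickson's theorem this is the case, after a change of basis, for all irreducible
representations over an algebraic closure of `𝔽_p` with nonsolvable image whose projective image is not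
isomorphic to `A₅` (for a suitable `F`).

If at the primes of a set of upper density greater than `m / (q - 1)` the trace of `ρ` at a Frobenius
element is the trace of one of the `m` continuous representations `σ₁, …, σ_m`, then one of the `σ_i`
is isomorphic to `χ ⊗ ρ^(p^j)`: a twist of a conjugate by a power of the Frobenius of `k`.
No condition is put on the `σ_i` (reducible, small image, any kernel).

**Proof.** By Chebotarev's theorem this is a question on a finite quotient `Γ`. If some element of
`ker σ` has a unipotent image `≠ 1` under `ρ`, then `ρ (ker σ)` contains `SL₂(F)` and the traces agree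
in each coset of it on at most `q² + q` of the `q (q² - 1)` matrices. If not, `ker σ` is mapped by `ρ`
to scalars (elements `n gⁱ`, `g` unipotent, are not semisimple); a Frattini argument with a Sylow
subgroup of `ker ρ` shows that `ker ρ` has no unipotent elements either; so `σ` maps unipotent elements to
unipotent ones, upper triangular ones to upper triangular ones, and the relations between these and the
Weyl elements give a homomorphism of fields `φ : F → k` with `σ x = c' φ(A)` for `ρ x = c ι(A)`.
-/

set_option autoImplicit false

open Matrix NumberField IsDedekindDomain Filter Topology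
open Pool.Agent.W401.Cheb (GK IsFrob dens)

namespace Pool.Agent.Results.MP_cab3fc_nt.SmallDensityMultiplicityOne

/-- The image of `ρ` is large over the field `F`, embedded in `k` by `ι`: up to scalars of `k` it
contains `SL₂(F)`, and up to scalars of `k` it is contained in `GL₂(F)`. -/
def Large {K k F : Type} [Field K] [Field k] [Field F] (ι : F →+* k) (ρ : GK K →* GL (Fin 2) k) :
    Prop :=
  (∀ B : Matrix (Fin 2) (Fin 2) F, B.det = 1 → ∃ (x : GK K) (c : k), (ρ x).val = c • B.map ι) ∧
    ∀ x : GK K, ∃ (c : k) (A : GL (Fin 2) F), (ρ x).val = c • A.val.map ι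

/-- The set of the primes `v` of `K` with property `P` has upper density greater than `d`. -/
def UpperDensityGT {K : Type} [Field K] [NumberField K] (P : HeightOneSpectrum (𝓞 K) → Prop)
    (d : ℝ) : Prop :=
  ∃ δ : ℝ, d < δ ∧ ∃ᶠ N in atTop, δ ≤ dens P N

/-- **Multiplicity one modulo `p` from primes of small density.** -/
theorem result (p : ℕ) [Fact p.Prime] (h5 : 5 ≤ p) (F : Type) [Field F] [Fintype F] [CharP F p]
    (K : Type) [Field K] [NumberField K] (k : Type) [Field k] [CharP k p] (ι : F →+* k)
    (ρ : GK K →* GL (Fin 2) k) (hρ : IsOpen (ρ.ker : Set (GK K))) (hL : Large ι ρ)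
    (m : ℕ) (σ : Fin m → (GK K →* GL (Fin 2) k)) (hσ : ∀ i, IsOpen ((σ i).ker : Set (GK K)))
    (h : UpperDensityGT (fun v : HeightOneSpectrum (𝓞 K) => ∃ x, IsFrob v x ∧
      ∃ i, (ρ x).val.trace = (σ i x).val.trace) ((m : ℝ) / (Fintype.card F - 1))) :
    ∃ (i : Fin m) (P : GL (Fin 2) k) (j : ℕ) (χ : GK K →* kˣ), IsOpen (χ.ker : Set (GK K)) ∧
      ∀ x, (σ i x).val =
        (χ x : k) • (P.val * (ρ x).val.map (fun a => a ^ p ^ j) * (P⁻¹).val) := by
  obtain ⟨δ, hδ, hG⟩ := h
  exact Pool.Agent.H502.SM.main_one h5 ⟨hL.1, hL.2⟩ hρ hσ _ hG hδ fun v hv => hv

end Pool.Agent.Results.MP_cab3fc_nt.SmallDensityMultiplicityOne
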